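import Mathlib

set_option autoImplicit false

namespace Pool.Agent.P8H51.SB

open Finset

/-- if `n ^ 2` divides `m r`, `r` squarefree, then `n` divides `m` -/
theorem dvd_of_sq_dvd (n m r : ℕ) (hn : n ≠ 0) (hr : Squarefree r) (h : n ^ 2 ∣ m * r) : n ∣ m := by
  obtain ⟨d, n', r', hd, hcop, rfl, rfl⟩ : ∃ d n' r', 0 < d ∧ Nat.Coprime n' r' ∧ n = n' * d ∧ r = r' * d := by
    have hpos : 0 < Nat.gcd n r := Nat.gcd_pos_of_pos_left _ (Nat.pos_of_ne_zero hn)
    obtain ⟨n', r', h1, h2, h3⟩ := Nat.exists_coprime n r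
    exact ⟨_, _, _, hpos, h1, h2, h3⟩
  have h1 : Nat.Coprime r' d := Nat.coprime_of_squarefree_mul hr
  have h2 : (n' * d) * n' * d ∣ (m * r') * d := by
    have : (n' * d) * n' * d = (n' * d) ^ 2 := by ring
    rw [this]
    have h3 : m * r' * d = m * (r' * d) := by ring
    rw [h3]
    exact h
  have h3 : (n' * d) * n' ∣ m * r' := Nat.dvd_of_mul_dvd_mul_right hd h2
  have h4 : Nat.Coprime (n' * d) r' := Nat.Coprime.mul_left hcop h1.symm
  exact h4.dvd_of_dvd_mul_right (dvd_trans (Dvd.intro _ rfl) h3)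

theorem gcd_parts (X Y T R T' R' : ℕ) (hX : X = T * R) (hY : Y = T' * R') (hX0 : X ≠ 0)
    (hR : ∀ p, p.Prime → p ∣ X → p ∣ R) (hR' : ∀ p, p.Prime → p ∣ Y → p ∣ R') :
    ∃ q : ℕ, Nat.gcd X Y = q * ∏ p ∈ (Nat.gcd X Y).primeFactors, p ∧ Nat.gcd T T' ∣ q := by
  set γ := Nat.gcd X Y with hγ
  have hγ0 : γ ≠ 0 := Nat.gcd_ne_zero_left hX0
  set ρ := ∏ p ∈ γ.primeFactors, p with hρ
  have hρ0 : 0 < ρ := Finset.prod_pos fun p hp => (Nat.prime_of_mem_primeFactors hp).pos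
  have hργ : ρ ∣ γ := Nat.prod_primeFactors_dvd γ
  obtain ⟨q, hq⟩ := hργ
  refine ⟨q, by rw [hq]; ring, ?_⟩
  have key : ∀ (W T R : ℕ), W = T * R → (∀ p, p.Prime → p ∣ W → p ∣ R) → γ ∣ W → T * ρ ∣ W := by
    intro W T R h1 h2 h3
    rw [h1]
    refine mul_dvd_mul_left _ ?_
    refine Finset.prod_primes_dvd _ (fun p hp => (Nat.prime_of_mem_primeFactors hp).prime)
      fun p hp => ?_
    exact h2 p (Nat.prime_of_mem_primeFactors hp) ((Nat.dvd_of_mem_primeFactors hp).trans h3)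
  have h1 : Nat.gcd T T' * ρ ∣ γ := by
    refine Nat.dvd_gcd ?_ ?_
    · exact (mul_dvd_mul_right (Nat.gcd_dvd_left _ _) _).trans (key X T R hX hR (Nat.gcd_dvd_left _ _))
    · exact (mul_dvd_mul_right (Nat.gcd_dvd_right _ _) _).trans
        (key Y T' R' hY hR' (Nat.gcd_dvd_right _ _))
  rw [hq, mul_comm ρ q] at h1
  exact Nat.dvd_of_mul_dvd_mul_right hρ0 h1

theorem eval_smul_homog {ι : Type*} [Fintype ι] (G : MvPolynomial ι ℚ) (d : ℕ) (hG : G.IsHomogeneous d)
    (c : ℚ) (a : ι → ℚ) :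
    MvPolynomial.eval (fun i => c * a i) G = c ^ d * MvPolynomial.eval a G := by
  rw [MvPolynomial.eval_eq', MvPolynomial.eval_eq', Finset.mul_sum]
  refine Finset.sum_congr rfl fun m hm => ?_
  have h1 : ∑ i, m i = d := by
    have h2 := hG (MvPolynomial.mem_support_iff.1 hm)
    rw [← h2]
    simp [Finsupp.weight_apply, Finsupp.sum_fintype]
  have h3 : ∏ i, (c * a i) ^ m i = c ^ d * ∏ i, a i ^ m i := by
    rw [← h1, ← Finset.prod_pow_eq_pow_sum, ← Finset.prod_mul_distrib]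
    exact Finset.prod_congr rfl fun i _ => mul_pow _ _ _
  rw [h3]
  ring

/-- the ratios at which a nonzero form in two variables vanishes -/
theorem form_ratios (G : MvPolynomial (Fin 2) ℚ) (d : ℕ) (hG : G.IsHomogeneous d) (hG0 : G ≠ 0) :
    ∃ R : Finset ℚ, ∀ a : Fin 2 → ℚ, a 1 ≠ 0 → MvPolynomial.aeval a G = 0 → a 0 / a 1 ∈ R := by
  classical
  set g : Fin 2 → Polynomial ℚ := fun i => if i = 0 then Polynomial.X else 1 with hg
  set P : Polynomial ℚ := MvPolynomial.aeval g G with hP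
  have hev : ∀ t : ℚ, P.eval t = MvPolynomial.eval (fun i : Fin 2 => if i = 0 then t else 1) G := by
    intro t
    have h1 := MvPolynomial.comp_aeval_apply (f := g) (Polynomial.aeval t : Polynomial ℚ →ₐ[ℚ] ℚ) G
    rw [← hP, Polynomial.coe_aeval_eq_eval, MvPolynomial.aeval_eq_eval] at h1
    rw [h1]
    congr 1
    congr 1
    funext i
    rw [hg]
    split_ifs with h <;> simp [h]
  have hdiv : ∀ a : Fin 2 → ℚ, a 1 ≠ 0 → MvPolynomial.eval a G = (a 1) ^ d * P.eval (a 0 / a 1) := by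
    intro a ha
    rw [hev, ← eval_smul_homog G d hG]
    congr 1
    congr 1
    funext i
    fin_cases i
    · simp
      field_simp
    · simp
  have hP0 : P ≠ 0 := by
    intro h0
    apply hG0
    have h1 : G * MvPolynomial.X 1 = 0 := by
      refine (hG.mul (MvPolynomial.isHomogeneous_X _ _)).eq_zero_of_forall_eval_eq_zero ?_
      intro a
      rw [map_mul, MvPolynomial.eval_X]
      by_cases ha : a 1 = 0
      · rw [ha, mul_zero]
      · rw [hdiv a ha, h0]
        simp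
    exact (mul_eq_zero.1 h1).resolve_right (MvPolynomial.X_ne_zero _)
  refine ⟨P.roots.toFinset, ?_⟩
  intro a ha h0
  rw [MvPolynomial.aeval_eq_eval] at h0
  have h1 := hdiv a ha
  rw [Multiset.mem_toFinset, Polynomial.mem_roots hP0]
  have h2 : (a 1) ^ d * P.eval (a 0 / a 1) = 0 := by
    rw [← h1]
    exact h0
  exact (mul_eq_zero.1 h2).resolve_left (pow_ne_zero _ ha)

end Pool.Agent.P8H51.SB
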