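import Mathlib
import Pool.Agent.TH551.HA.Jc3

/-!
# Determinants of tables: the greatest common divisor of the repeated parts

Variants of `placesJ` and `tableIneq` of project HA, in which the greatest common divisor of the terms `A σ` is replaced by
any multiple `g` of the greatest common divisor of the divisors `P σ`.
-/

set_option autoImplicit false
set_option linter.unusedSectionVars false
set_option linter.unusedVariables false

namespace Pool.Agent.P8H51.SB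

open Filter Topology Pool.Agent.TH932.Germs Pool.Agent.TH551.SU Pool.Agent.TH551.ZP
open Pool.Agent.TH551.SU.CRV Pool.Agent.TH551.ZP.GT Pool.Agent.TH551.HA

section

variable {s : ℕ} {b : Fin s → ℕ} {L : ℕ → ℝ}

lemma qi_int (hL : Tendsto L atTop atTop) (h : ℕ → ℤ) : QI b L (gm (fun t => (h t : ℚ))) := by
  refine ⟨fun _ => 1, Negl.one hL, by simp, ?_⟩
  filter_upwards [rep_gm (fun t => (h t : ℚ))] with t ht
  rw [ht]
  simpa using IntS.int b (h t)

/-- the places together -/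
lemma placesG (hb : ∀ v, (b v).Prime) {N : ℕ} (J : Finset (Fin N))
    (A : Fin N → ℤ) (Pi g : ℤ) (W ω : ℚ) (L ε1 : ℝ)
    (hup : ∀ v, ∀ j ∈ J, av b v W * av b v (A j : ℚ) ≤
      Real.exp (ε1 * L) * ∏ σ ∈ J, av b v (A σ : ℚ))
    (hgA : ∀ v : Fin s, ∃ j ∈ J, av b (some v) (g : ℚ) ≤ av b (some v) (A j : ℚ))
    (hW : W * (g : ℚ) = (Pi : ℚ) * ω)
    (hω : Real.exp (-(ε1 * L)) ≤ ∏ v, av b v ω) (j : Fin N) (hj : j ∈ J) :
    |(A j : ℝ)| * ∏ v, av b v (Pi : ℚ) ≤ Real.exp (((s : ℝ) + 2) * ε1 * L) *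
      (|(g : ℝ)| * ∏ v, ∏ σ ∈ J, av b v (A σ : ℚ)) := by
  have hfin : ∀ v : Fin s, av b (some v) W * av b (some v) (g : ℚ) ≤
      Real.exp (ε1 * L) * ∏ σ ∈ J, av b (some v) (A σ : ℚ) := by
    intro v
    obtain ⟨i, hi, h1⟩ := hgA v
    exact (mul_le_mul_of_nonneg_left h1 (av_nonneg hb _ _)).trans (hup (some v) i hi)
  have h1 : (av b none W * av b none (A j : ℚ)) *
      ∏ v : Fin s, (av b (some v) W * av b (some v) (g : ℚ)) ≤
      (Real.exp (ε1 * L) * ∏ σ ∈ J, av b none (A σ : ℚ)) *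
      ∏ v : Fin s, (Real.exp (ε1 * L) * ∏ σ ∈ J, av b (some v) (A σ : ℚ)) := by
    refine mul_le_mul (hup none j hj) (Finset.prod_le_prod (fun v _ =>
      mul_nonneg (av_nonneg hb _ _) (av_nonneg hb _ _)) fun v _ => hfin v)
      (Finset.prod_nonneg fun v _ => mul_nonneg (av_nonneg hb _ _) (av_nonneg hb _ _)) ?_
    exact mul_nonneg (Real.exp_pos _).le (Finset.prod_nonneg fun _ _ => av_nonneg hb _ _)
  have h2 : (Real.exp (ε1 * L) * ∏ σ ∈ J, av b none (A σ : ℚ)) *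
      ∏ v : Fin s, (Real.exp (ε1 * L) * ∏ σ ∈ J, av b (some v) (A σ : ℚ)) =
      Real.exp (((s : ℝ) + 1) * (ε1 * L)) * ∏ v, ∏ σ ∈ J, av b v (A σ : ℚ) := by
    rw [Finset.prod_mul_distrib, Finset.prod_const, Finset.card_univ, Fintype.card_fin,
      Fintype.prod_option, ← Real.exp_nat_mul]
    have h3 : ((s : ℝ) + 1) * (ε1 * L) = ε1 * L + (s : ℝ) * (ε1 * L) := by ring
    rw [h3, Real.exp_add]
    ring
  rw [h2, Finset.prod_mul_distrib] at h1
  -- the equation for `W`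
  have h3 : (∏ v, av b v W) * ∏ v, av b v (g : ℚ) =
      (∏ v, av b v (Pi : ℚ)) * ∏ v, av b v ω := by
    rw [← Finset.prod_mul_distrib, ← Finset.prod_mul_distrib]
    refine Finset.prod_congr rfl fun v _ => ?_
    rw [← av_mul hb, hW, av_mul hb]
  have h4 : |(A j : ℝ)| = av b none (A j : ℚ) := by
    simp only [av]
    push_cast
    rfl
  have h5 : |(g : ℝ)| = av b none (g : ℚ) := by
    simp only [av]
    push_cast
    rfl
  rw [h4, h5]
  rw [Fintype.prod_option (f := fun v => av b v W),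
    Fintype.prod_option (f := fun v => av b v (g : ℚ))] at h3
  set a0 := av b none (A j : ℚ) with ha0
  set g0 := av b none (g : ℚ) with hg0
  set w0 := av b none W with hw0
  set w1 := ∏ v : Fin s, av b (some v) W with hw1
  set g1 := ∏ v : Fin s, av b (some v) (g : ℚ) with hg1
  set PP := ∏ v, av b v (Pi : ℚ) with hPP
  set OO := ∏ v, av b v ω with hOO
  set AA := ∏ v, ∏ σ ∈ J, av b v (A σ : ℚ) with hAA
  have n1 : 0 ≤ a0 := av_nonneg hb _ _
  have n2 : 0 ≤ g0 := av_nonneg hb _ _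
  have n3 : 0 ≤ PP := Finset.prod_nonneg fun v _ => av_nonneg hb _ _
  have n4 : 0 ≤ AA := Finset.prod_nonneg fun v _ => Finset.prod_nonneg fun _ _ => av_nonneg hb _ _
  have h6 : a0 * PP * Real.exp (-(ε1 * L)) ≤ g0 * (Real.exp (((s : ℝ) + 1) * (ε1 * L)) * AA) := by
    calc a0 * PP * Real.exp (-(ε1 * L)) ≤ a0 * PP * OO :=
          mul_le_mul_of_nonneg_left hω (mul_nonneg n1 n3)
      _ = g0 * (w0 * a0 * (w1 * g1)) := by
          have h7 : a0 * PP * OO = a0 * (PP * OO) := by ring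
          rw [h7, ← h3]
          ring
      _ ≤ _ := mul_le_mul_of_nonneg_left h1 n2
  have h7 : Real.exp (((s : ℝ) + 2) * ε1 * L) =
      Real.exp (ε1 * L) * Real.exp (((s : ℝ) + 1) * (ε1 * L)) := by
    rw [← Real.exp_add]
    congr 1
    ring
  have h8 : Real.exp (ε1 * L) * Real.exp (-(ε1 * L)) = 1 := by
    rw [← Real.exp_add]
    simp
  calc a0 * PP = Real.exp (ε1 * L) * (a0 * PP * Real.exp (-(ε1 * L))) := by
        have h9 : Real.exp (ε1 * L) * (a0 * PP * Real.exp (-(ε1 * L))) =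
          (Real.exp (ε1 * L) * Real.exp (-(ε1 * L))) * (a0 * PP) := by ring
        rw [h9, h8, one_mul]
    _ ≤ Real.exp (ε1 * L) * (g0 * (Real.exp (((s : ℝ) + 1) * (ε1 * L)) * AA)) :=
        mul_le_mul_of_nonneg_left h6 (Real.exp_pos _).le
    _ = _ := by
        rw [h7]
        ring

/-- **the inequality for a table** -/
theorem tableIneqG (hb : ∀ v, (b v).Prime) (hbi : Function.Injective b)
    (hL : Tendsto L atTop atTop) {m : ℕ} (R : Fin m → Fin (m + 1) → GG)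
    (A : Fin (m + 1) → ℕ → ℤ) (hA0 : ∀ σ t, A σ t ≠ 0) (hW0 : WE R Fin.castSucc ≠ 0)
    (hrel : ∀ i, ∑ σ, R i σ = 0)
    (hR : ∀ v i σ, Dom b L v (R i σ) (gm (fun t => (A σ t : ℚ))))
    (P : Fin (m + 1) → ℕ → ℤ) (hP0 : ∀ σ t, P σ t ≠ 0) (g : ℕ → ℤ) (hg0 : ∀ t, g t ≠ 0)
    (hgP : ∀ t, Finset.univ.gcd (fun σ => P σ t) ∣ g t)
    (hgA : ∀ t (v : Fin s), ∃ j, av b (some v) (g t : ℚ) ≤ av b (some v) (A j t : ℚ))
    (hQ : ∀ i σ, ∃ ω, QI b L ω ∧ R i σ = gm (fun t => (P σ t : ℚ)) * ω)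
    (ε : ℝ) (hε : 0 < ε) :
    ∀ᶠ t in (UU : Filter ℕ), ∀ j, |(A j t : ℝ)| * ∏ v, av b v ((∏ σ, P σ t : ℤ) : ℚ) ≤
      Real.exp (ε * L t) * (|(g t : ℝ)| * ∏ v, ∏ σ, av b v (A σ t : ℚ)) := by
  classical
  set W : GG := WE R Fin.castSucc with hWdef
  have hW : ∀ j, (∀ v, Dom b L v W (∏ σ ∈ Finset.univ.erase j, gm (fun t => (A σ t : ℚ)))) ∧
      ∃ ω, QI b L ω ∧ W = (∏ σ ∈ Finset.univ.erase j, gm (fun t => (P σ t : ℚ))) * ω := by
    intro j
    refine Fin.lastCases ?_ (fun c => ?_) j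
    · constructor
      · intro v
        have h1 := WE_dom hb hbi hL R _ v (fun i σ => hR v i σ) Fin.castSucc
        rwa [prod_castSucc (fun σ => gm (fun t => (A σ t : ℚ)))] at h1
      · obtain ⟨ω, hω, h1⟩ := WE_qi hb hL R _ hQ Fin.castSucc
        exact ⟨ω, hω, by
          rw [hWdef, h1, prod_castSucc (fun σ => gm (fun t => (P σ t : ℚ)))]⟩
    · have hWeq : W = (-1 : GG) *
          WE R (Function.update (Fin.castSucc : Fin m → Fin (m + 1)) c (Fin.last m)) := by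
        rw [hWdef, WE_update R hrel c]
        ring
      have hKc : (-1 : GG) ∈ KK L hL := neg_mem (KK L hL).one_mem
      constructor
      · intro v
        rw [hWeq]
        refine Dom.smul hb hbi hL hKc ?_
        have h1 := WE_dom hb hbi hL R _ v (fun i σ => hR v i σ)
          (Function.update (Fin.castSucc : Fin m → Fin (m + 1)) c (Fin.last m))
        rwa [prod_update (fun σ => gm (fun t => (A σ t : ℚ)))] at h1
      · obtain ⟨ω, hω, h1⟩ := WE_qi hb hL R _ hQ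
          (Function.update (Fin.castSucc : Fin m → Fin (m + 1)) c (Fin.last m))
        refine ⟨(-1 : GG) * ω, QI.mul hb (QI.of_KK hb hL hKc) hω, ?_⟩
        rw [hWeq, h1, prod_update (fun σ => gm (fun t => (P σ t : ℚ)))]
        ring
  choose hWd ω hω using hW
  have hQI0 := qi_lcm hb hL W Finset.univ P P hP0 (fun _ _ => dvd_rfl) ω (fun j _ => hω j)
  choose h hh using hgP
  set gG : GG := gm (fun t => (g t : ℚ)) with hgG
  set gP : GG := gm (fun t => ((∏ σ, P σ t : ℤ) : ℚ)) with hgP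
  have hgG0 : gG ≠ 0 := by
    rw [hgG, gm_ne_zero]
    refine Eventually.of_forall fun t => ?_
    exact_mod_cast hg0 t
  have hgP0 : gP ≠ 0 := by
    rw [hgP, gm_ne_zero]
    refine Eventually.of_forall fun t => ?_
    exact_mod_cast Finset.prod_ne_zero_iff.2 fun σ _ => hP0 σ t
  set Ω : GG := W * gG / gP with hΩ
  have hQI : QI b L Ω := by
    have h1 : Ω = (W * gm (fun t => ((Finset.univ.gcd (fun σ => P σ t) : ℤ) : ℚ)) / gP) *
        gm (fun t => (h t : ℚ)) := by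
      have h2 : gG = gm (fun t => ((Finset.univ.gcd (fun σ => P σ t) : ℤ) : ℚ)) *
          gm (fun t => (h t : ℚ)) := by
        rw [gm_mul, hgG]
        congr 1
        funext t
        rw [hh t]
        push_cast
        rfl
      rw [hΩ, h2]
      ring
    rw [h1]
    exact QI.mul hb hQI0 (qi_int hL h)
  have hΩ0 : Ω ≠ 0 := div_ne_zero (mul_ne_zero hW0 hgG0) hgP0
  have hs2 : (0 : ℝ) < (s : ℝ) + 2 := by positivity
  obtain ⟨ε1, hε1⟩ : ∃ ε1 : ℝ, ε1 = ε / (s + 2) := ⟨_, rfl⟩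
  have hε1' : 0 < ε1 := by rw [hε1]; positivity
  have hdom' : ∀ᶠ t in (UU : Filter ℕ), ∀ v, ∀ j, j ∈ (Finset.univ : Finset (Fin (m + 1))) →
      av b v (rep W t) * av b v (A j t : ℚ) ≤
        Real.exp (ε1 * L t) * ∏ σ, av b v (A σ t : ℚ) := by
    refine eventually_all.2 fun v => eventually_all.2 fun j => ?_
    have h1 := hWd j v ε1 hε1'
    rw [gm_prod'] at h1
    filter_upwards [h1, rep_gm (fun t => ∏ σ ∈ Finset.univ.erase j, (A σ t : ℚ))] with t h3 h4 _
    rw [h4, av_prod hb] at h3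
    rw [← Finset.mul_prod_erase _ _ (Finset.mem_univ j)]
    have h5 := av_nonneg hb v (A j t : ℚ)
    calc av b v (rep W t) * av b v (A j t : ℚ) ≤
        (Real.exp (ε1 * L t) * ∏ σ ∈ Finset.univ.erase j, av b v (A σ t : ℚ)) *
          av b v (A j t : ℚ) := mul_le_mul_of_nonneg_right h3 h5
      _ = _ := by ring
  have hWΩ : ∀ᶠ t in (UU : Filter ℕ), rep W t *
      (g t : ℚ) = ((∏ σ, P σ t : ℤ) : ℚ) * rep Ω t := by
    have h1 : W * gG = gP * Ω := by
      rw [hΩ, mul_div_cancel₀ _ hgP0]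
    have h2 := rep_mul W gG
    have h3 := rep_mul gP Ω
    rw [← h1] at h3
    filter_upwards [h2, h3, rep_gm (fun t => (g t : ℚ)),
      rep_gm (fun t => ((∏ σ, P σ t : ℤ) : ℚ))] with t h4 h5 h6 h7
    rw [← h6, ← h7, ← h4, ← h5]
  filter_upwards [hdom', hWΩ, QI.lower hb hbi hL hQI hΩ0 ε1 hε1'] with t h1 h2 h3 j
  have h4 := placesG hb Finset.univ (fun σ => A σ t)
    (∏ σ, P σ t) (g t) (rep W t) (rep Ω t) (L t) ε1 h1
    (fun v => by obtain ⟨j, hj⟩ := hgA t v; exact ⟨j, Finset.mem_univ _, hj⟩) h2 h3 j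
    (Finset.mem_univ j)
  have h5 : ((s : ℝ) + 2) * ε1 = ε := by
    rw [hε1]
    field_simp
  rw [h5] at h4
  exact h4

end

end Pool.Agent.P8H51.SB
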