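import Mathlib
import Pool.Agent.TH551.HA.Jc5
import Pool.Agent.P8H51.SB.Germ

/-!
# The `n`-term inequality for sums of S-units, refined

The proof is the one of `abcdMain` of project HA.
-/

set_option autoImplicit false
set_option linter.unusedSectionVars false
set_option linter.unusedVariables false

namespace Pool.Agent.P8H51.SB

open Filter Topology Pool.Agent.TH932.Germs Pool.Agent.TH551.SU Pool.Agent.TH551.ZP
open Pool.Agent.TH551.SU.CRV Pool.Agent.TH551.SU.Ht Pool.Agent.TH551.HA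

/-- **The `n`-term inequality for sums of S-units, outside a closed set**, with the greatest common divisor of the
repeated parts in the place of the one of the terms. -/
theorem abcdMainG (hnc : NcStmt) (hcs : CSStmt) (hhb : HbStmt) (hfw : FwStmt) (m p k : ℕ)
    (τ : Fin p → Fin (m + 2)) (e : Fin p → ℕ) (he : ∀ i, 1 ≤ e i) (Γ : Subgroup ℚˣ) {s : ℕ} {b : Fin s → ℕ}
    (hb : ∀ v, (b v).Prime) (hbi : Function.Injective b)
    (hΓb : ∀ g ∈ Γ, IsSU b ((g : ℚˣ) : ℚ))
    (ε : ℝ) (hε : 0 < ε) :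
    ∃ (G : MvPolynomial (Fin (m + 1)) ℚ) (C : ℝ), (∃ d, G.IsHomogeneous d) ∧ G ≠ 0 ∧
      ∀ M : ℝ, 1 ≤ M → ∀ (u : Fin p → Fin k → Γ) (c : Fin p → Fin k → ℤ),
        (∀ i j, |(c i j : ℝ)| ≤ M) → ∀ x : Fin p → ℤ,
        (∀ i, (x i : ℚ) = ∑ j, ((u i j : ℚˣ) : ℚ) * c i j) →
        ∀ w A : Fin (m + 2) → ℤ, (∀ σ, ∃ g ∈ Γ, (w σ : ℚ) = (g : ℚ)) →
        (∀ σ, A σ = w σ * ∏ i with τ i = σ, x i ^ (e i)) → (∀ σ, A σ ≠ 0) →
        ∑ σ, A σ = 0 → MvPolynomial.aeval (fun i => (A (Fin.castSucc i) : ℚ)) G ≠ 0 →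
        ∀ gc : ℤ, gc ≠ 0 → Finset.univ.gcd (fun σ => ∏ i with τ i = σ, x i ^ (e i - 1)) ∣ gc →
        (∀ v : Fin s, ∃ j, av b (some v) (gc : ℚ) ≤ av b (some v) (A j : ℚ)) →
        ∀ σ, (1 - ε) * Real.log |(A σ : ℝ)| ≤ C * (1 + Real.log M) +
          (Real.log |(gc : ℝ)| + ∑ i, Real.log |(x i : ℝ)|) := by
  classical
  by_contra hcon
  push Not at hcon
  -- an enumeration of the nonzero forms
  let T : Type := {G : MvPolynomial (Fin (m + 1)) ℚ // (∃ e, G.IsHomogeneous e) ∧ G ≠ 0}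
  have hT : Nonempty T := ⟨⟨1, ⟨0, MvPolynomial.isHomogeneous_one _ _⟩, one_ne_zero⟩⟩
  obtain ⟨g, hg⟩ := exists_surjective_nat T
  set GG' : ℕ → MvPolynomial (Fin (m + 1)) ℚ := fun t => ∏ i ∈ Finset.range (t + 1), (g i).1
    with hGG'
  have hGh : ∀ t, ∃ e, (GG' t).IsHomogeneous e := by
    intro t
    choose e' he' using fun i => (g i).2.1
    exact ⟨_, MvPolynomial.IsHomogeneous.prod _ _ _ fun i _ => he' i⟩
  have hG0 : ∀ t, GG' t ≠ 0 := fun t => Finset.prod_ne_zero_iff.2 fun i _ => (g i).2.2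
  choose M hM u c hc x hx w A hw hA hA0 hsum hGz gc hgc0 hgcP hgcA ib hlt using fun t : ℕ =>
    hcon (GG' t) (t : ℝ) (hGh t) (hG0 t)
  choose im him using fun t : ℕ => Finite.exists_max (fun i => |(A t i : ℝ)|)
  set L : ℕ → ℝ := fun t => Real.log |(A t (im t) : ℝ)| with hLdef
  have hA1 : ∀ t i, 1 ≤ |(A t i : ℝ)| := fun t i => by exact_mod_cast Int.one_le_abs (hA0 t i)
  have hL0 : ∀ t, 0 ≤ L t := fun t => Real.log_nonneg (hA1 t _)
  have hlM : ∀ t, 0 ≤ Real.log (M t) := fun t => Real.log_nonneg (hM t)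
  have hexpL : ∀ t, Real.exp (L t) = |(A t (im t) : ℝ)| := fun t =>
    Real.exp_log (by linarith [hA1 t (im t)])
  have hAle : ∀ t i, |(A t i : ℝ)| ≤ Real.exp (L t) := fun t i => by
    rw [hexpL]
    exact him t i
  have hx0 : ∀ t i, x t i ≠ 0 := by
    intro t i h0
    have h1 := hA0 t (τ i)
    rw [hA] at h1
    apply h1
    have h2 : ∏ j with τ j = τ i, x t j ^ (e j) = 0 :=
      Finset.prod_eq_zero (i := i) (Finset.mem_filter.2 ⟨Finset.mem_univ _, rfl⟩)
        (by rw [h0, zero_pow (by have := he i; omega)])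
    rw [h2, mul_zero]
  have hx1 : ∀ t i, 1 ≤ |(x t i : ℝ)| := fun t i => by exact_mod_cast Int.one_le_abs (hx0 t i)
  have hgcd1 : ∀ t, 1 ≤ |(gc t : ℝ)| := fun t => by
    exact_mod_cast Int.one_le_abs (hgc0 t)
  have hlx : ∀ t, 0 ≤ Real.log |(gc t : ℝ)| +
      ∑ i, Real.log |(x t i : ℝ)| := fun t =>
    add_nonneg (Real.log_nonneg (hgcd1 t)) (Finset.sum_nonneg fun i _ => Real.log_nonneg (hx1 t i))
  have hLt : ∀ t : ℕ, (t : ℝ) * (1 + Real.log (M t)) < L t := by
    intro t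
    have h1 : (t : ℝ) * (1 + Real.log (M t)) + (Real.log |(gc t : ℝ)| +
        ∑ i, Real.log |(x t i : ℝ)|) < (1 - ε) * Real.log |(A t (ib t) : ℝ)| := hlt t
    have h2 : 0 ≤ Real.log |(A t (ib t) : ℝ)| := Real.log_nonneg (hA1 t _)
    have h3 : Real.log |(A t (ib t) : ℝ)| ≤ L t :=
      Real.log_le_log (by linarith [hA1 t (ib t)]) (him t (ib t))
    have h4 : (1 - ε) * Real.log |(A t (ib t) : ℝ)| ≤ Real.log |(A t (ib t) : ℝ)| := by
      nlinarith
    linarith [hlx t]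
  have hL : Tendsto L atTop atTop := by
    refine tendsto_atTop_mono (fun t => ?_) tendsto_natCast_atTop_atTop
    have h1 := hLt t
    have h2 : 0 ≤ (t : ℝ) * Real.log (M t) := mul_nonneg (Nat.cast_nonneg t) (hlM t)
    rw [mul_add, mul_one] at h1
    linarith
  -- the digits are negligible
  have hneg : ∀ z : ℕ → ℤ, (∀ t, |(z t : ℝ)| ≤ M t) → gm (fun t => (z t : ℚ)) ∈ KK L hL := by
    intro z hz
    refine ⟨z, fun _ => 1, ?_, Negl.one hL, by simp, by
      congr 1
      funext t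
      simp⟩
    intro ε' hε'
    have h1 : ∀ᶠ t : ℕ in atTop, 1 / ε' ≤ (t : ℝ) :=
      tendsto_natCast_atTop_atTop.eventually_ge_atTop _
    refine ev_of_atTop (h1.mono fun t ht => ?_)
    refine (hz t).trans ?_
    rw [← Real.exp_log (show 0 < M t by linarith [hM t])]
    refine Real.exp_le_exp.2 ?_
    have h2 := hLt t
    have h3 : 1 / ε' * Real.log (M t) ≤ (t : ℝ) * (1 + Real.log (M t)) := by
      have h5 : (0 : ℝ) ≤ t := Nat.cast_nonneg t
      nlinarith [mul_le_mul_of_nonneg_right ht (hlM t)]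
    have h5 : 1 / ε' * Real.log (M t) ≤ L t := h3.trans h2.le
    rw [one_div, inv_mul_le_iff₀ hε'] at h5
    exact h5
  -- divisors of the terms are bounded
  have hdvle : ∀ t σ (z : ℤ), z ∣ A t σ → |(z : ℝ)| ≤ Real.exp (L t) := fun t σ z hz =>
    (abs_le_of_dvd hz (hA0 t σ)).trans (hAle t σ)
  have hxle : ∀ i t, |(x t i : ℝ)| ≤ Real.exp (L t) := by
    intro i t
    refine hdvle t (τ i) _ ?_
    rw [hA]
    refine Dvd.dvd.mul_left ?_ _
    refine (dvd_pow_self (x t i) (by have := he i; omega : e i ≠ 0)).trans ?_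
    exact Finset.dvd_prod_of_mem (fun j => x t j ^ (e j))
      (Finset.mem_filter.2 ⟨Finset.mem_univ _, rfl⟩)
  have hwle : ∀ σ t, |(w t σ : ℝ)| ≤ Real.exp (L t) := by
    intro σ t
    refine hdvle t σ _ ?_
    rw [hA]
    exact dvd_mul_right _ _
  -- the germs
  have hrepz : ∀ z : ℕ → ℤ, ∀ᶠ t in (UU : Filter ℕ), rep (gm (fun t => (z t : ℚ))) t = z t :=
    fun z => rep_gm _
  have hHB : ∀ i, ∃ (m' : ℕ) (u' : Fin m' → GG) (c' : Fin m' → KK L hL), (∀ j, GSU b (u' j)) ∧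
        (∀ j, Mod b L (u' j)) ∧ ∑ j, (c' j : GG) * u' j = gm (fun t => (x t i : ℚ)) := by
    intro i
    set V : Fin k → GG := fun j => gm (fun t => ((u t i j : ℚˣ) : ℚ)) with hV
    have hVS : ∀ j, GSU b (V j) := fun j => ⟨_, rfl, fun t => hΓb _ (u t i j).2⟩
    have hgerm : ∑ j, gm (fun t => (c t i j : ℚ)) * V j = gm (fun t => (x t i : ℚ)) := by
      have h1 : ∀ j, gm (fun t => (c t i j : ℚ)) * V j =
          gm (fun t => ((u t i j : ℚˣ) : ℚ) * c t i j) := by
        intro j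
        rw [hV]
        simp only
        rw [gm_mul]
        congr 1
        funext t
        ring
      simp only [h1]
      rw [gm_sum']
      congr 1
      funext t
      rw [hx t i]
    have h1 := hhb s b hb hbi L hL k V hVS
      (fun j => ⟨gm (fun t => (c t i j : ℚ)), hneg _ fun t => hc t i j⟩) 1 (by
        have h2 : ∑ j, ((⟨gm (fun t => (c t i j : ℚ)), hneg _ fun t => hc t i j⟩ :
            KK L hL) : GG) * V j = gm (fun t => (x t i : ℚ)) := hgerm
        rw [h2]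
        filter_upwards [hrepz (fun t => x t i)] with t ht v
        rw [ht, one_mul]
        cases v with
        | none =>
          simp only [av]
          push_cast
          exact hxle i t
        | some v => exact (av_int_le_one hb v _).trans (Real.one_le_exp (hL0 t)))
    obtain ⟨m', u', c', h3, h4, h5⟩ := h1
    exact ⟨m', u', c', h3, h4, h5.trans hgerm⟩
  choose m' u' c' hu' hu'' hs' using hHB
  have hwS : ∀ σ t, IsSU b (w t σ : ℚ) := by
    intro σ t
    obtain ⟨g, hg, h1⟩ := hw t σ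
    rw [h1]
    exact hΓb g hg
  have hwG : ∀ σ, GSU b (gm (fun t => (w t σ : ℚ))) := fun σ => ⟨_, rfl, hwS σ⟩
  have hwM : ∀ σ, Mod b L (gm (fun t => (w t σ : ℚ))) := by
    intro σ
    refine mod_of_upper hb hbi hL _ (hwS σ) 1 (by norm_num) ?_
    refine Eventually.of_forall fun t v => ?_
    rw [one_mul]
    cases v with
    | none =>
      simp only [av]
      push_cast
      exact hwle σ t
    | some v => exact (av_int_le_one hb v _).trans (Real.one_le_exp (hL0 t))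
  -- the combined family
  let T2 : Type := (Σ i : Fin p, Fin (m' i)) ⊕ Fin (m + 2)
  let eqv : T2 ≃ Fin (Fintype.card T2) := Fintype.equivFin T2
  let f : T2 → GG := Sum.elim (fun q => u' q.1 q.2) (fun σ => gm (fun t => (w t σ : ℚ)))
  set W : Fin (Fintype.card T2 + 1) → GG := Fin.cons 1 (fun j => f (eqv.symm j)) with hW
  have hWs : ∀ q : T2, W (eqv q).succ = f q := by
    intro q
    rw [hW, Fin.cons_succ, Equiv.symm_apply_apply]
  have hWall : ∀ (P : GG → Prop), P 1 → (∀ q, P (f q)) → ∀ j, P (W j) := by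
    intro P h0 h1 j
    rw [hW]
    refine Fin.cases ?_ (fun j => ?_) j
    · simpa using h0
    · rw [Fin.cons_succ]
      exact h1 _
  have hWg : ∀ j, GSU b (W j) := hWall _ GSU.one fun q => by
    rcases q with q | σ
    · exact hu' _ _
    · exact hwG σ
  have hWm : ∀ j, Mod b L (W j) := hWall _ (Mod.one hb hL) fun q => by
    rcases q with q | σ
    · exact hu'' _ _
    · exact hwM σ
  obtain ⟨l, hl⟩ := hfw L hL (Fintype.card T2) W (fun j => GSU.ne_zero hb (hWg j))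
    (1 + ∑ i, e i)
  have hs : Setup b hL W l (1 + ∑ i, e i) := ⟨hWg, hWm, hl⟩
  choose X hX hX1 using fun i => exists_lift (hL := hL) W l
    (fun j : Fin (m' i) => (eqv (Sum.inl ⟨i, j⟩)).succ) (c' i)
  have hX2 : ∀ i, (X i).eval 1 = gm (fun t => (x t i : ℚ)) := by
    intro i
    rw [hX1, ← hs' i]
    refine Finset.sum_congr rfl fun j _ => ?_
    rw [hWs]
    rfl
  have key := abcdGermG hnc hcs hb hbi hs (by rw [hW]; rfl) p τ e he le_rfl X hX
    (fun i t => x t i) hX2 (fun σ t => w t σ) hwS (fun σ => (eqv (Sum.inr σ)).succ)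
    (fun σ => by rw [hWs]; rfl) (fun σ t => A t σ) (fun σ t => hA t σ) (fun σ t => hA0 t σ)
    hsum (by
      intro G hGh' hGI' h0
      obtain ⟨s0, hs0⟩ := hg ⟨G, hGh', hGI'⟩
      rw [Main.aeval_gm, ← gm_zero, gm_eq] at h0
      have h1 : ∀ᶠ t : ℕ in (UU : Filter ℕ), s0 ≤ t :=
        ev_of_atTop (eventually_ge_atTop s0)
      obtain ⟨t, h2, h3⟩ := (h0.and h1).exists
      apply hGz t
      simp only [hGG', map_prod]
      refine Finset.prod_eq_zero (i := s0) (Finset.mem_range.2 (by omega)) ?_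
      rw [hs0]
      exact h2) (fun t => gc t) hgc0 hgcP hgcA (ε / 2) (by positivity)
  have hpos : ∀ᶠ t in (UU : Filter ℕ), 0 < L t := ev_of_atTop (hL.eventually_gt_atTop 0)
  obtain ⟨t, h1, h2⟩ := (key.and hpos).exists
  have h3 : (t : ℝ) * (1 + Real.log (M t)) + (Real.log |(gc t : ℝ)| +
      ∑ i, Real.log |(x t i : ℝ)|) < (1 - ε) * Real.log |(A t (ib t) : ℝ)| := hlt t
  have h4 : 0 ≤ (t : ℝ) * (1 + Real.log (M t)) :=
    mul_nonneg (Nat.cast_nonneg t) (by linarith [hlM t])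
  have h5 : (1 - ε / 2) * L t ≤ Real.log |(gc t : ℝ)| +
      ∑ i, Real.log |(x t i : ℝ)| := by
    have h6 : |(A t (im t) : ℝ)| ≤ Real.exp (ε / 2 * L t) *
        (|(gc t : ℝ)| * ∏ i, |(x t i : ℝ)|) := h1 (im t)
    rw [← hexpL] at h6
    have hpx : (0 : ℝ) < ∏ i, |(x t i : ℝ)| := Finset.prod_pos fun i _ => by linarith [hx1 t i]
    rw [← Real.log_prod (fun i _ => by linarith [hx1 t i]),
      ← Real.log_mul (by linarith [hgcd1 t]) hpx.ne', ← Real.log_exp ((1 - ε / 2) * L t)]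
    refine Real.log_le_log (Real.exp_pos _) ?_
    have h7 : (1 - ε / 2) * L t = L t - ε / 2 * L t := by ring
    rw [h7, Real.exp_sub, div_le_iff₀ (Real.exp_pos _), mul_comm]
    exact h6
  have h6 : 0 ≤ Real.log |(A t (ib t) : ℝ)| := Real.log_nonneg (hA1 t _)
  have h7 : Real.log |(A t (ib t) : ℝ)| ≤ L t :=
    Real.log_le_log (by linarith [hA1 t (ib t)]) (him t (ib t))
  have h8 : 0 < 1 - ε := by
    by_contra h9
    push Not at h9
    nlinarith [hlx t]
  nlinarith


end Pool.Agent.P8H51.SB
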