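import Mathlib
import Pool.Agent.P8H51.SB.Main
import Pool.Agent.P8H51.SB.Arith

/-!
# The refined inequality for three terms, with an arbitrary finite set of factors
-/

set_option autoImplicit false

namespace Pool.Agent.P8H51.SB

open Pool.Agent.TH551.SU Pool.Agent.TH551.HA

/-- the refined inequality, factors indexed by a finite type -/
theorem abcG {ι : Type} [Fintype ι] (m k : ℕ) (τ : ι → Fin (m + 2)) (e : ι → ℕ)
    (he : ∀ i, 1 ≤ e i) (Γ : Subgroup ℚˣ) {s : ℕ} {b : Fin s → ℕ} (hb : ∀ v, (b v).Prime)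
    (hbi : Function.Injective b) (hΓb : ∀ g ∈ Γ, IsSU b ((g : ℚˣ) : ℚ)) (ε : ℝ) (hε : 0 < ε) :
    ∃ (G : MvPolynomial (Fin (m + 1)) ℚ) (C : ℝ), (∃ d, G.IsHomogeneous d) ∧ G ≠ 0 ∧
      ∀ M : ℝ, 1 ≤ M → ∀ (u : ι → Fin k → Γ) (c : ι → Fin k → ℤ),
        (∀ i j, |(c i j : ℝ)| ≤ M) → ∀ x : ι → ℤ,
        (∀ i, (x i : ℚ) = ∑ j, ((u i j : ℚˣ) : ℚ) * c i j) →
        ∀ w A : Fin (m + 2) → ℤ, (∀ σ, ∃ g ∈ Γ, (w σ : ℚ) = (g : ℚ)) →
        (∀ σ, A σ = w σ * ∏ i with τ i = σ, x i ^ (e i)) → (∀ σ, A σ ≠ 0) →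
        ∑ σ, A σ = 0 → MvPolynomial.aeval (fun i => (A (Fin.castSucc i) : ℚ)) G ≠ 0 →
        ∀ gc : ℤ, gc ≠ 0 → Finset.univ.gcd (fun σ => ∏ i with τ i = σ, x i ^ (e i - 1)) ∣ gc →
        (∀ v : Fin s, ∃ j, av b (some v) (gc : ℚ) ≤ av b (some v) (A j : ℚ)) →
        ∀ σ, (1 - ε) * Real.log |(A σ : ℝ)| ≤ C * (1 + Real.log M) +
          (Real.log |(gc : ℝ)| + ∑ i, Real.log |(x i : ℝ)|) := by
  classical
  let φ : Fin (Fintype.card ι) ≃ ι := (Fintype.equivFin ι).symm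
  obtain ⟨G, C, h1, h2, h3⟩ := abcdMainG ncF csF hbF fwF m (Fintype.card ι) k (fun i => τ (φ i))
    (fun i => e (φ i)) (fun i => he _) Γ hb hbi hΓb ε hε
  refine ⟨G, C, h1, h2, ?_⟩
  intro M hM u c hc x hx w A hw hA hA0 hsum hGz gc hgc0 hgP hgA σ
  have hre : ∀ (f : ι → ℤ) (σ : Fin (m + 2)), ∏ i with τ (φ i) = σ, f (φ i) =
      ∏ i with τ i = σ, f i := by
    intro f σ
    rw [Finset.prod_filter, Finset.prod_filter]
    exact Equiv.prod_comp φ (fun i => if τ i = σ then f i else 1)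
  have h4 := h3 M hM (fun i => u (φ i)) (fun i => c (φ i)) (fun i j => hc _ _) (fun i => x (φ i))
    (fun i => hx _) w A hw (fun σ => by rw [hA σ, hre (fun i => x i ^ e i)]) hA0 hsum hGz gc hgc0
    (by
      have h5 : (fun σ => ∏ i with τ (φ i) = σ, x (φ i) ^ (e (φ i) - 1)) =
          (fun σ => ∏ i with τ i = σ, x i ^ (e i - 1)) := by
        funext σ
        exact hre (fun i => x i ^ (e i - 1)) σ
      rw [h5]
      exact hgP) hgA σ
  refine h4.trans_eq ?_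
  congr 2
  exact Equiv.sum_comp φ (fun i => Real.log |(x i : ℝ)|)

end Pool.Agent.P8H51.SB
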