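import Mathlib
import Pool.Agent.P8H51.SB.Gen

/-!
# Solutions of `A X + B Y = C Z` in products of small spread with sparse bases
-/

set_option autoImplicit false

namespace Pool.Agent.P8H51.SB

open Pool.Agent.TH551.SU Pool.Agent.TH551.SU.Ht Pool.Agent.TH551.HA Finset

/-- `n` is a sum of `k` products of an element of `Γ` and an integer of absolute value at most `R` -/
def IsSparse (Γ : Subgroup ℚˣ) (k : ℕ) (R : ℝ) (n : ℕ) : Prop :=
  ∃ (u : Fin k → Γ) (c : Fin k → ℤ), (∀ j, |(c j : ℝ)| ≤ R) ∧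
    (n : ℚ) = ∑ j, ((u j : ℚˣ) : ℚ) * c j

/-- the data of a solution: `E σ j` is the multiplicity of the factor `b σ + j` of `W σ` -/
structure Sol (A B C : ℕ) (F Q : ℝ) (D : ℕ) (E : Fin 3 → Fin (D + 1) → ℕ)
    (b n s W : Fin 3 → ℕ) : Prop where
  rel : A * W 0 + B * W 1 = C * W 2
  bpos : ∀ σ, 0 < b σ
  nle : ∀ σ, n σ ≤ D
  sum : ∀ σ, ∑ j, E σ j = n σ
  zero : ∀ σ (j : Fin (D + 1)), s σ < (j : ℕ) → E σ j = 0
  slt : ∀ σ, 1 + s σ < n σ
  prod : ∀ σ, W σ = ∏ j : Fin (D + 1), (b σ + j) ^ E σ j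
  deg : ∑ σ, (1 + (s σ : ℝ)) / n σ ≤ F
  gcd : ((Nat.gcd (W 0) (W 1) : ℕ) : ℝ) ≤
    Q * ((∏ p ∈ (Nat.gcd (W 0) (W 1)).primeFactors, p : ℕ) : ℝ)

theorem norm_le_of_fact (p : ℕ) [Fact p.Prime] (m n : ℕ) (hm : m ≠ 0) (hn : n ≠ 0)
    (h : n.factorization p ≤ m.factorization p) :
    padicNorm p (m : ℚ) ≤ padicNorm p (n : ℚ) := by
  have hp := Fact.out (p := p.Prime)
  rw [padicNorm.eq_zpow_of_nonzero (by exact_mod_cast hm),
    padicNorm.eq_zpow_of_nonzero (by exact_mod_cast hn), padicValRat.of_nat, padicValRat.of_nat]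
  rw [Nat.factorization_def n hp, Nat.factorization_def m hp] at h
  refine zpow_le_zpow_right₀ (by exact_mod_cast hp.one_lt.le) ?_
  exact neg_le_neg (by exact_mod_cast h)

/-- the condition at the primes of `Γ` -/
theorem s_part (p : ℕ) [Fact p.Prime] (A B X Y q PS : ℕ) (hA : 0 < A) (hB : 0 < B) (hX : 0 < X)
    (hY : 0 < Y) (hPS : 0 < PS) (hp : p ∣ PS)
    (hq : Nat.gcd X Y = q * ∏ p ∈ (Nat.gcd X Y).primeFactors, p) :
    padicNorm p ((A * B * q * PS : ℕ) : ℚ) ≤ padicNorm p ((A * X : ℕ) : ℚ) ∨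
    padicNorm p ((A * B * q * PS : ℕ) : ℚ) ≤ padicNorm p ((B * Y : ℕ) : ℚ) := by
  have hpp := Fact.out (p := p.Prime)
  have hγ0 : Nat.gcd X Y ≠ 0 := Nat.gcd_ne_zero_left hX.ne'
  set ρ := ∏ p ∈ (Nat.gcd X Y).primeFactors, p with hρ
  have hρ0 : ρ ≠ 0 := by
    rw [hρ]
    exact (Finset.prod_pos fun p hp => (Nat.prime_of_mem_primeFactors hp).pos).ne'
  have hq0 : q ≠ 0 := by
    intro h
    rw [h, zero_mul] at hq
    exact hγ0 hq
  have hsq : Squarefree ρ := by
    have h1 : ρ = UniqueFactorizationMonoid.radical (Nat.gcd X Y) := by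
      rw [hρ, Nat.radical_eq_prod_primeFactors]
    rw [h1]
    exact UniqueFactorizationMonoid.squarefree_radical
  have h1 : ρ.factorization p ≤ 1 := hsq.natFactorization_le_one p
  have h2 : (Nat.gcd X Y).factorization p = q.factorization p + ρ.factorization p := by
    rw [hq, Nat.factorization_mul hq0 hρ0]
    rfl
  have h3 : (Nat.gcd X Y).factorization p = min (X.factorization p) (Y.factorization p) := by
    rw [Nat.factorization_gcd hX.ne' hY.ne']
    rfl
  have h4 : 1 ≤ PS.factorization p :=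
    (hpp.dvd_iff_one_le_factorization hPS.ne').1 hp
  have h5 : (A * B * q * PS).factorization p = A.factorization p + B.factorization p +
      q.factorization p + PS.factorization p := by
    rw [Nat.factorization_mul (by positivity) hPS.ne', Nat.factorization_mul (by positivity) hq0,
      Nat.factorization_mul hA.ne' hB.ne']
    rfl
  have h6 : (A * X).factorization p = A.factorization p + X.factorization p := by
    rw [Nat.factorization_mul hA.ne' hX.ne']
    rfl
  have h7 : (B * Y).factorization p = B.factorization p + Y.factorization p := by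
    rw [Nat.factorization_mul hB.ne' hY.ne']
    rfl
  have h8 : A * B * q * PS ≠ 0 := by positivity
  rcases le_total (X.factorization p) (Y.factorization p) with h | h
  · left
    refine norm_le_of_fact p _ _ h8 (by positivity) ?_
    rw [min_eq_left h] at h3
    omega
  · right
    refine norm_le_of_fact p _ _ h8 (by positivity) ?_
    rw [min_eq_right h] at h3
    omega

/-- products over the factors with positive multiplicity -/
theorem prod_sub {M : Type*} [CommMonoid M] {D : ℕ} (E : Fin 3 → Fin (D + 1) → ℕ)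
    (f : Fin 3 × Fin (D + 1) → M) (hf : ∀ q, E q.1 q.2 = 0 → f q = 1) (σ : Fin 3) :
    ∏ q : {q : Fin 3 × Fin (D + 1) // 1 ≤ E q.1 q.2} with q.1.1 = σ, f q.1 =
      ∏ j, f (σ, j) := by
  classical
  rw [Finset.prod_filter]
  have h1 : ∏ q : {q : Fin 3 × Fin (D + 1) // 1 ≤ E q.1 q.2}, (if q.1.1 = σ then f q.1 else 1) =
      ∏ q : Fin 3 × Fin (D + 1) with 1 ≤ E q.1 q.2, (if q.1 = σ then f q else 1) := by
    rw [← Finset.prod_subtype (univ.filter fun q : Fin 3 × Fin (D + 1) => 1 ≤ E q.1 q.2)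
      (by simp) (fun q => if q.1 = σ then f q else 1)]
  rw [h1, Finset.prod_filter, Fintype.prod_prod_type, Finset.prod_comm]
  refine Finset.prod_congr rfl fun j _ => ?_
  have h2 : ∀ σ' : Fin 3, (if 1 ≤ E σ' j then (if σ' = σ then f (σ', j) else 1) else 1) =
      if σ' = σ then f (σ', j) else 1 := by
    intro σ'
    split_ifs with h3 h4 h4
    · rfl
    · rfl
    · exact (hf (σ', j) (by simp only; omega)).symm
    · rfl
  rw [Finset.prod_congr rfl fun σ' _ => h2 σ', Finset.prod_ite_eq']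
  simp

end Pool.Agent.P8H51.SB
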