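import Mathlib
import Pool.Agent.P8H51.SB.Sol

/-!
# Solutions with a given ratio
-/

set_option autoImplicit false

namespace Pool.Agent.P8H51.SB

open Finset

variable {A B C : ℕ} {F Q : ℝ} {D : ℕ} {E : Fin 3 → Fin (D + 1) → ℕ} {b n s W : Fin 3 → ℕ}

theorem Sol.Wpos (h : Sol A B C F Q D E b n s W) (σ : Fin 3) : 0 < W σ := by
  rw [h.prod]
  exact Finset.prod_pos fun j _ => pow_pos (by have := h.bpos σ; omega) _

/-- some factor is repeated -/
theorem Sol.exists_two (h : Sol A B C F Q D E b n s W) (σ : Fin 3) :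
    ∃ j : Fin (D + 1), 2 ≤ E σ j ∧ (j : ℕ) ≤ s σ := by
  by_contra hcon
  push Not at hcon
  have h1 : ∑ j : Fin (D + 1), E σ j ≤ ∑ j : Fin (D + 1), if (j : ℕ) ≤ s σ then 1 else 0 := by
    refine Finset.sum_le_sum fun j _ => ?_
    split_ifs with h2
    · by_contra h3
      have := hcon j (by omega)
      omega
    · rw [h.zero σ j (by omega)]
  rw [h.sum, Finset.sum_boole] at h1
  have h2 : ((univ : Finset (Fin (D + 1))).filter fun j : Fin (D + 1) => (j : ℕ) ≤ s σ).card ≤ s σ + 1 := by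
    have h3 : (((univ : Finset (Fin (D + 1))).filter fun j : Fin (D + 1) => (j : ℕ) ≤ s σ).map
        ⟨fun j : Fin (D + 1) => (j : ℕ), Fin.val_injective⟩) ⊆ Finset.range (s σ + 1) := by
      intro x hx
      rw [Finset.mem_map] at hx
      obtain ⟨j, hj, rfl⟩ := hx
      rw [Finset.mem_filter] at hj
      simp only [Function.Embedding.coeFn_mk, Finset.mem_range]
      omega
    have h4 := Finset.card_le_card h3
    rwa [Finset.card_map, Finset.card_range] at h4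
  have h3 := h.slt σ
  have h4 : n σ ≤ ((univ : Finset (Fin (D + 1))).filter fun j : Fin (D + 1) => (j : ℕ) ≤ s σ).card := by
    exact_mod_cast h1
  omega

/-- the product of the different factors -/
def Rad (E : Fin 3 → Fin (D + 1) → ℕ) (b : Fin 3 → ℕ) (σ : Fin 3) : ℕ :=
  ∏ j : Fin (D + 1), if 1 ≤ E σ j then b σ + j else 1

/-- the repeated part -/
def Rep (E : Fin 3 → Fin (D + 1) → ℕ) (b : Fin 3 → ℕ) (σ : Fin 3) : ℕ :=
  ∏ j : Fin (D + 1), (b σ + j) ^ (E σ j - 1)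

theorem Sol.split (h : Sol A B C F Q D E b n s W) (σ : Fin 3) :
    W σ = Rep E b σ * Rad E b σ := by
  rw [h.prod, Rep, Rad, ← Finset.prod_mul_distrib]
  refine Finset.prod_congr rfl fun j _ => ?_
  split_ifs with h1
  · rw [← pow_succ, Nat.sub_add_cancel h1]
  · have : E σ j = 0 := by omega
    simp [this]

theorem Sol.prime_dvd (h : Sol A B C F Q D E b n s W) (σ : Fin 3) (p : ℕ) (hp : p.Prime)
    (hd : p ∣ W σ) : p ∣ Rad E b σ := by
  rw [h.prod, hp.prime.dvd_finsetProd_iff] at hd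
  obtain ⟨j, _, hj⟩ := hd
  have h1 : 1 ≤ E σ j := by
    by_contra h2
    have h3 : E σ j = 0 := by omega
    rw [h3, pow_zero] at hj
    exact hp.one_lt.ne' (Nat.dvd_one.1 hj)
  have h2 : p ∣ b σ + j := hp.dvd_of_dvd_pow hj
  rw [Rad]
  refine h2.trans ?_
  have h3 := Finset.dvd_prod_of_mem (fun j : Fin (D + 1) => if 1 ≤ E σ j then b σ + (j : ℕ) else 1)
    (Finset.mem_univ j)
  simpa only [if_pos h1] using h3

/-- the greatest common divisor of the repeated parts is bounded -/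
theorem Sol.gcd_rep (h : Sol A B C F Q D E b n s W) : ∃ q : ℕ,
    Nat.gcd (W 0) (W 1) = q * ∏ p ∈ (Nat.gcd (W 0) (W 1)).primeFactors, p ∧
    Nat.gcd (Rep E b 0) (Rep E b 1) ∣ q ∧ 1 ≤ q ∧ (q : ℝ) ≤ Q := by
  obtain ⟨q, h1, h2⟩ := gcd_parts (W 0) (W 1) (Rep E b 0) (Rad E b 0) (Rep E b 1) (Rad E b 1)
    (h.split 0) (h.split 1) (h.Wpos 0).ne' (h.prime_dvd 0) (h.prime_dvd 1)
  have hγ0 : Nat.gcd (W 0) (W 1) ≠ 0 := Nat.gcd_ne_zero_left (h.Wpos 0).ne'
  refine ⟨q, h1, h2, ?_, ?_⟩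
  · by_contra h3
    have h4 : q = 0 := by omega
    rw [h4, zero_mul] at h1
    exact hγ0 h1
  · have h3 := h.gcd
    have hρ : (0 : ℝ) < ((∏ p ∈ (Nat.gcd (W 0) (W 1)).primeFactors, p : ℕ) : ℝ) := by
      exact_mod_cast Finset.prod_pos fun p hp => (Nat.prime_of_mem_primeFactors hp).pos
    have h4 : ((Nat.gcd (W 0) (W 1) : ℕ) : ℝ) =
        (q : ℝ) * ((∏ p ∈ (Nat.gcd (W 0) (W 1)).primeFactors, p : ℕ) : ℝ) := by
      conv_lhs => rw [h1]
      push_cast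
      rfl
    rw [h4] at h3
    exact le_of_mul_le_mul_right h3 hρ

/-- **solutions with a given ratio are bounded** -/
theorem ratio_bounded (A B C : ℕ) (hA : 0 < A) (hB : 0 < B) (hC : 0 < C) (F Q : ℝ) (D : ℕ)
    (r : ℚ) : ∃ N : ℕ, ∀ (E : Fin 3 → Fin (D + 1) → ℕ) (b n s W : Fin 3 → ℕ),
      Sol A B C F Q D E b n s W → ((A * W 0 : ℕ) : ℚ) / ((B * W 1 : ℕ) : ℚ) = r →
      ∀ σ, W σ ≤ N := by
  set r' : ℚ := r * B / A with hr'
  set a := r'.num.natAbs with ha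
  set c := r'.den with hc
  set NX := (⌊Q⌋₊ * a + D) ^ D with hNX
  refine ⟨NX + NX * c + (A * NX + B * (NX * c)), ?_⟩
  intro E b n s W h hr
  have hX0 := h.Wpos 0
  have hY0 := h.Wpos 1
  have hAQ : (A : ℚ) ≠ 0 := by exact_mod_cast hA.ne'
  have hBQ : (B : ℚ) ≠ 0 := by exact_mod_cast hB.ne'
  have hXQ : (W 0 : ℚ) ≠ 0 := by exact_mod_cast hX0.ne'
  have hYQ : (W 1 : ℚ) ≠ 0 := by exact_mod_cast hY0.ne'
  have h1 : (W 0 : ℚ) / W 1 = r' := by
    rw [hr', ← hr]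
    push_cast
    field_simp
  have hr0 : 0 < r' := by
    rw [← h1]
    positivity
  have hc0 : 0 < c := r'.den_pos
  have hnum : (r'.num : ℤ) = (a : ℤ) := by
    rw [ha]
    exact (Int.natAbs_of_nonneg (Rat.num_nonneg.2 hr0.le)).symm
  have h2 : W 0 * c = W 1 * a := by
    have h3 : r' = (a : ℚ) / c := by
      conv_lhs => rw [← Rat.num_div_den r']
      rw [hnum, hc]
      push_cast
      rfl
    have hcQ : (c : ℚ) ≠ 0 := by exact_mod_cast hc0.ne'
    rw [h3, div_eq_div_iff hYQ hcQ] at h1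
    have h4 : ((W 0 * c : ℕ) : ℚ) = ((W 1 * a : ℕ) : ℚ) := by
      push_cast
      rw [h1]
      ring
    exact_mod_cast h4
  have hcop : Nat.Coprime a c := r'.reduced
  have ha0 : 0 < a := by
    rw [ha]
    exact Int.natAbs_pos.2 (Rat.num_pos.2 hr0).ne'
  obtain ⟨t, ht⟩ : a ∣ W 0 := hcop.dvd_of_dvd_mul_right (by rw [h2]; exact dvd_mul_left _ _)
  have ht1 : W 1 = c * t := by
    have h3 : a * (c * t) = a * W 1 := by
      calc a * (c * t) = a * t * c := by ring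
        _ = W 0 * c := by rw [ht]
        _ = W 1 * a := h2
        _ = a * W 1 := by ring
    exact (Nat.eq_of_mul_eq_mul_left ha0 h3).symm
  have hγ : Nat.gcd (W 0) (W 1) = t := by
    rw [ht, ht1, Nat.gcd_mul_right, hcop.gcd_eq_one, one_mul]
  obtain ⟨q, hq1, _, hq3, hq4⟩ := h.gcd_rep
  obtain ⟨j, hj, hjs⟩ := h.exists_two 0
  have hsq : Squarefree (∏ p ∈ (Nat.gcd (W 0) (W 1)).primeFactors, p) := by
    rw [← Nat.radical_eq_prod_primeFactors]
    exact UniqueFactorizationMonoid.squarefree_radical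
  have hd : (b 0 + j) ^ 2 ∣ (q * a) * ∏ p ∈ (Nat.gcd (W 0) (W 1)).primeFactors, p := by
    have h3 : (q * a) * ∏ p ∈ (Nat.gcd (W 0) (W 1)).primeFactors, p = W 0 := by
      rw [mul_right_comm, ← hq1, hγ, ht, mul_comm]
    rw [h3, h.prod 0]
    exact (pow_dvd_pow _ hj).trans
      (Finset.dvd_prod_of_mem (fun j : Fin (D + 1) => (b 0 + (j : ℕ)) ^ E 0 j) (Finset.mem_univ j))
  have hd1 : b 0 + j ∣ q * a :=
    dvd_of_sq_dvd _ _ _ (by have := h.bpos 0; omega) hsq hd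
  have hqa : 0 < q * a := Nat.mul_pos hq3 ha0
  have hb : b 0 ≤ ⌊Q⌋₊ * a := by
    have h3 := Nat.le_of_dvd hqa hd1
    have h4 : q ≤ ⌊Q⌋₊ := Nat.le_floor hq4
    calc b 0 ≤ q * a := by omega
      _ ≤ ⌊Q⌋₊ * a := Nat.mul_le_mul_right _ h4
  have hX : W 0 ≤ NX := by
    rw [h.prod 0, hNX]
    calc ∏ j : Fin (D + 1), (b 0 + (j : ℕ)) ^ E 0 j ≤
        ∏ j : Fin (D + 1), (⌊Q⌋₊ * a + D) ^ E 0 j :=
          Finset.prod_le_prod' fun j _ => Nat.pow_le_pow_left (by have := j.2; omega) _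
      _ = (⌊Q⌋₊ * a + D) ^ n 0 := by rw [Finset.prod_pow_eq_pow_sum, h.sum]
      _ ≤ _ := Nat.pow_le_pow_right (by have := h.bpos 0; omega) (h.nle 0)
  have hY : W 1 ≤ NX * c := by
    have h3 : W 1 * 1 ≤ W 1 * a := Nat.mul_le_mul_left _ ha0
    calc W 1 ≤ W 1 * a := by omega
      _ = W 0 * c := h2.symm
      _ ≤ NX * c := Nat.mul_le_mul_right _ hX
  have hZ : W 2 ≤ A * NX + B * (NX * c) := by
    calc W 2 ≤ C * W 2 := Nat.le_mul_of_pos_left _ hC
      _ = A * W 0 + B * W 1 := h.rel.symm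
      _ ≤ _ := Nat.add_le_add (Nat.mul_le_mul_left _ hX) (Nat.mul_le_mul_left _ hY)
  intro σ
  fin_cases σ
  · show W 0 ≤ _
    omega
  · show W 1 ≤ _
    omega
  · show W 2 ≤ _
    omega

end Pool.Agent.P8H51.SB
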