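import Mathlib
import Pool.Agent.P8H51.SB.Ratio

/-!
# The inequality for solutions with sparse bases
-/

set_option autoImplicit false

namespace Pool.Agent.P8H51.SB

open Pool.Agent.TH551.SU Pool.Agent.TH551.SU.Ht Pool.Agent.TH551.HA Finset

variable {A B C : ℕ} {F Q : ℝ} {D : ℕ} {E : Fin 3 → Fin (D + 1) → ℕ} {b n s W : Fin 3 → ℕ}

/-- the sizes of the different factors -/
theorem Sol.log_rad (h : Sol A B C F Q D E b n s W) (σ : Fin 3) (L : ℝ) (hL : Real.log (W σ) ≤ L) :
    Real.log (Rad E b σ) ≤ (1 + (s σ : ℝ)) / n σ * L + (1 + D) * Real.log (1 + D) := by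
  have hb := h.bpos σ
  have hb1 : (1 : ℝ) ≤ b σ := by exact_mod_cast hb
  have hn0 : 0 < n σ := by have := h.slt σ; omega
  have hnR : (0 : ℝ) < n σ := by exact_mod_cast hn0
  have hD0 : (0 : ℝ) ≤ Real.log (1 + D) := Real.log_nonneg (by
    have : (0 : ℝ) ≤ D := Nat.cast_nonneg D
    linarith)
  have hlb : 0 ≤ Real.log (b σ) := Real.log_nonneg hb1
  -- the sum over the factors
  have h1 : Real.log (Rad E b σ) = ∑ j : Fin (D + 1),
      if 1 ≤ E σ j then Real.log ((b σ : ℝ) + (j : ℕ)) else 0 := by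
    rw [Rad]
    push_cast
    rw [Real.log_prod]
    · refine Finset.sum_congr rfl fun j _ => ?_
      split_ifs with h2
      · rfl
      · exact Real.log_one
    · intro j _
      split_ifs with h2
      · have : (0 : ℝ) ≤ ((j : ℕ) : ℝ) := Nat.cast_nonneg _
        positivity
      · exact one_ne_zero
  have h2 : Real.log (Rad E b σ) ≤ ∑ j : Fin (D + 1),
      if (j : ℕ) ≤ s σ then (Real.log (b σ) + Real.log (1 + D)) else 0 := by
    rw [h1]
    refine Finset.sum_le_sum fun j _ => ?_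
    split_ifs with h3 h4 h4
    · rw [← Real.log_mul (by positivity) (by positivity)]
      refine Real.log_le_log (by positivity) ?_
      have h5 : (((j : ℕ)) : ℝ) ≤ D := by exact_mod_cast Nat.lt_succ_iff.1 j.2
      nlinarith [Nat.cast_nonneg (α := ℝ) D]
    · exfalso
      have := h.zero σ j (by omega)
      omega
    · positivity
    · exact le_rfl
  have h3 : (∑ j : Fin (D + 1),
      if (j : ℕ) ≤ s σ then (Real.log (b σ) + Real.log (1 + D)) else 0) ≤
      (1 + (s σ : ℝ)) * (Real.log (b σ) + Real.log (1 + D)) := by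
    rw [← Finset.sum_filter, Finset.sum_const, nsmul_eq_mul]
    refine mul_le_mul_of_nonneg_right ?_ (by positivity)
    have h3 : (((univ : Finset (Fin (D + 1))).filter fun j : Fin (D + 1) => (j : ℕ) ≤ s σ).map
        ⟨fun j : Fin (D + 1) => (j : ℕ), Fin.val_injective⟩) ⊆ Finset.range (s σ + 1) := by
      intro x hx
      rw [Finset.mem_map] at hx
      obtain ⟨j, hj, rfl⟩ := hx
      rw [Finset.mem_filter] at hj
      simp only [Function.Embedding.coeFn_mk, Finset.mem_range]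
      omega
    have h4 := Finset.card_le_card h3
    rw [Finset.card_map, Finset.card_range] at h4
    have h5 : ((((univ : Finset (Fin (D + 1))).filter
        fun j : Fin (D + 1) => (j : ℕ) ≤ s σ).card : ℕ) : ℝ) ≤ ((s σ + 1 : ℕ) : ℝ) := by
      exact_mod_cast h4
    push_cast at h5
    linarith
  -- the size of `W σ`
  have h4 : (n σ : ℝ) * Real.log (b σ) ≤ Real.log (W σ) := by
    rw [← Real.log_pow]
    refine Real.log_le_log (by positivity) ?_
    have h5 : b σ ^ n σ ≤ W σ := by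
      rw [h.prod, ← h.sum, ← Finset.prod_pow_eq_pow_sum]
      exact Finset.prod_le_prod' fun j _ => Nat.pow_le_pow_left (by omega) _
    exact_mod_cast h5
  have h5 : Real.log (b σ) ≤ L / n σ := by
    rw [le_div_iff₀ hnR]
    linarith
  have h6 : (1 + (s σ : ℝ)) ≤ 1 + D := by
    have h7 : s σ ≤ D := by
      have := h.slt σ
      have := h.nle σ
      omega
    have h8 : (s σ : ℝ) ≤ D := by exact_mod_cast h7
    linarith
  calc Real.log (Rad E b σ) ≤ (1 + (s σ : ℝ)) * (Real.log (b σ) + Real.log (1 + D)) := h2.trans h3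
    _ = (1 + (s σ : ℝ)) * Real.log (b σ) + (1 + (s σ : ℝ)) * Real.log (1 + D) := by ring
    _ ≤ (1 + (s σ : ℝ)) * (L / n σ) + (1 + D) * Real.log (1 + D) := by
        refine add_le_add (mul_le_mul_of_nonneg_left h5 (by positivity))
          (mul_le_mul_of_nonneg_right h6 hD0)
    _ = _ := by ring

/-- the coefficients -/
def wt (A B C : ℕ) : Fin 3 → ℤ := ![A, B, -C]

/-- the terms -/
def tm (A B C : ℕ) (W : Fin 3 → ℕ) (σ : Fin 3) : ℤ := wt A B C σ * W σ

theorem wt_unit (A B C : ℕ) (hA : 0 < A) (hB : 0 < B) (hC : 0 < C) (Γ : Subgroup ℚˣ) (hΓ : Γ.FG) :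
    ∃ Γ' : Subgroup ℚˣ, Γ'.FG ∧ Γ ≤ Γ' ∧ ∀ σ, ∃ g ∈ Γ', (wt A B C σ : ℚ) = ((g : ℚˣ) : ℚ) := by
  have hAQ : (A : ℚ) ≠ 0 := by exact_mod_cast hA.ne'
  have hBQ : (B : ℚ) ≠ 0 := by exact_mod_cast hB.ne'
  have hCQ : (-(C : ℚ)) ≠ 0 := neg_ne_zero.2 (by exact_mod_cast hC.ne')
  obtain ⟨T, hT⟩ := hΓ
  refine ⟨Subgroup.closure ((T : Set ℚˣ) ∪ {Units.mk0 _ hAQ, Units.mk0 _ hBQ, Units.mk0 _ hCQ}),
    ?_, ?_, ?_⟩
  · classical
    refine ⟨T ∪ {Units.mk0 _ hAQ, Units.mk0 _ hBQ, Units.mk0 _ hCQ}, ?_⟩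
    push_cast
    rfl
  · rw [← hT]
    exact Subgroup.closure_mono Set.subset_union_left
  · intro σ
    fin_cases σ
    · exact ⟨Units.mk0 _ hAQ, Subgroup.subset_closure (by simp), by simp [wt]⟩
    · exact ⟨Units.mk0 _ hBQ, Subgroup.subset_closure (by simp), by simp [wt]⟩
    · exact ⟨Units.mk0 _ hCQ, Subgroup.subset_closure (by simp), by simp [wt]⟩

end Pool.Agent.P8H51.SB
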