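import Mathlib
import Pool.Agent.P8H51.SB.Ineq

/-!
# The inequality for solutions with given multiplicities
-/

set_option autoImplicit false

namespace Pool.Agent.P8H51.SB

open Pool.Agent.TH551.SU Pool.Agent.TH551.SU.Ht Pool.Agent.TH551.HA Finset

theorem ineq_E (A B C : ℕ) (hA : 0 < A) (hB : 0 < B) (hC : 0 < C) (F Q : ℝ) (hF : F < 1) (D k : ℕ)
    (Γ : Subgroup ℚˣ) (hΓ : Γ.FG) (E : Fin 3 → Fin (D + 1) → ℕ) :
    ∃ (R : Finset ℚ) (C1 : ℝ), ∀ M : ℝ, 1 ≤ M → ∀ (b n s W : Fin 3 → ℕ),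
      Sol A B C F Q D E b n s W → (∀ σ, IsSparse Γ k M (b σ)) →
      ((A * W 0 : ℕ) : ℚ) / ((B * W 1 : ℕ) : ℚ) ∈ R ∨
        ∀ σ, Real.log (W σ) ≤ C1 * (1 + Real.log M) := by
  classical
  obtain ⟨Γ', hΓ', hle, hwt⟩ := wt_unit A B C hA hB hC Γ hΓ
  obtain ⟨t, pr, hpr, hpri, hprΓ⟩ := exists_base Γ' hΓ'
  obtain ⟨PS, hPS⟩ : ∃ PS : ℕ, PS = ∏ v, pr v := ⟨_, rfl⟩
  have hPS0 : 0 < PS := by
    rw [hPS]
    exact Finset.prod_pos fun v _ => (hpr v).pos
  obtain ⟨ε, hεdef⟩ : ∃ ε : ℝ, ε = (1 - F) / 2 := ⟨_, rfl⟩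
  have hε : 0 < ε := by rw [hεdef]; linarith
  obtain ⟨G, Cc, ⟨d, hGd⟩, hG0, hmain⟩ := abcG
    (ι := {q : Fin 3 × Fin (D + 1) // 1 ≤ E q.1 q.2}) 1 (k + 1) (fun q => q.1.1)
    (fun q => E q.1.1 q.1.2) (fun q => q.2) Γ' hpr hpri hprΓ ε hε
  obtain ⟨R, hR⟩ := form_ratios G d hGd hG0
  obtain ⟨lD, hlD⟩ : ∃ lD : ℝ, lD = Real.log (1 + D) := ⟨_, rfl⟩
  have hD0 : (0 : ℝ) ≤ D := Nat.cast_nonneg D
  have hlD0 : 0 ≤ lD := by
    rw [hlD]
    exact Real.log_nonneg (by linarith)
  obtain ⟨lQ, hlQ⟩ : ∃ lQ : ℝ, lQ = |Real.log (A * B * Q * PS)| := ⟨_, rfl⟩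
  have hlQ0 : 0 ≤ lQ := by rw [hlQ]; exact abs_nonneg _
  refine ⟨R, (|Cc| * (1 + lD) + lQ + 3 * ((1 + D) * lD)) / ε, ?_⟩
  intro M hM b n s W h hsp
  have hlM : 0 ≤ Real.log M := Real.log_nonneg hM
  have hW0 : ∀ σ, (0 : ℝ) < W σ := fun σ => by exact_mod_cast h.Wpos σ
  by_cases hz : MvPolynomial.aeval (fun i : Fin 2 => (tm A B C W (Fin.castSucc i) : ℚ)) G = 0
  · left
    have h1 := hR (fun i : Fin 2 => (tm A B C W (Fin.castSucc i) : ℚ)) (by
      have h2 : 0 < B * W 1 := Nat.mul_pos hB (h.Wpos 1)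
      have h3 : (tm A B C W (Fin.castSucc 1) : ℤ) = ((B * W 1 : ℕ) : ℤ) := by
        simp [tm, wt]
      rw [h3]
      exact_mod_cast h2.ne') hz
    have h3 : (tm A B C W (Fin.castSucc 1) : ℤ) = ((B * W 1 : ℕ) : ℤ) := by
      simp [tm, wt]
    have h4 : (tm A B C W (Fin.castSucc 0) : ℤ) = ((A * W 0 : ℕ) : ℤ) := by
      simp [tm, wt]
    simpa only [h3, h4, Int.cast_natCast] using h1
  · right
    -- the factors
    choose u₀ c₀ hc₀ hrep₀ using hsp
    obtain ⟨x, hx⟩ : ∃ x : {q : Fin 3 × Fin (D + 1) // 1 ≤ E q.1 q.2} → ℤ,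
      x = fun q => ((b q.1.1 + (q.1.2 : ℕ) : ℕ) : ℤ) := ⟨_, rfl⟩
    obtain ⟨q, hq1, hq2, hq3, hq4⟩ := h.gcd_rep
    have hterm : ∀ σ, tm A B C W σ = wt A B C σ *
        ∏ q : {q : Fin 3 × Fin (D + 1) // 1 ≤ E q.1 q.2} with q.1.1 = σ,
          x q ^ (E q.1.1 q.1.2) := by
      intro σ
      have h1 := prod_sub E (fun q => (((b q.1 + (q.2 : ℕ) : ℕ) : ℤ)) ^ (E q.1 q.2))
        (fun q hq => by simp only [hq, pow_zero]) σ
      have h2 : ((W σ : ℕ) : ℤ) = ∏ j : Fin (D + 1), ((b σ + (j : ℕ) : ℕ) : ℤ) ^ (E σ j) := by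
        rw [h.prod σ]
        push_cast
        rfl
      rw [tm, h2, hx]
      congr 1
      exact h1.symm
    have hrepd : ∀ σ, ∏ q : {q : Fin 3 × Fin (D + 1) // 1 ≤ E q.1 q.2} with q.1.1 = σ,
          x q ^ (E q.1.1 q.1.2 - 1) = ((Rep E b σ : ℕ) : ℤ) := by
      intro σ
      have h1 := prod_sub E (fun q => (((b q.1 + (q.2 : ℕ) : ℕ) : ℤ)) ^ (E q.1 q.2 - 1))
        (fun q hq => by simp only [hq]; simp) σ
      rw [hx, Rep]
      push_cast
      push_cast at h1
      exact h1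
    have hsumr : ∑ i, Real.log |(x i : ℝ)| = ∑ σ, Real.log (Rad E b σ) := by
      have h1 : ∀ i, |(x i : ℝ)| = ((b i.1.1 + (i.1.2 : ℕ) : ℕ) : ℝ) := by
        intro i
        rw [hx]
        simp only [Int.cast_natCast]
        exact abs_of_nonneg (Nat.cast_nonneg _)
      have h2 : ∀ i : {q : Fin 3 × Fin (D + 1) // 1 ≤ E q.1 q.2},
          ((b i.1.1 + (i.1.2 : ℕ) : ℕ) : ℝ) ≠ 0 := by
        intro i
        have := h.bpos i.1.1
        have h3 : b i.1.1 + (i.1.2 : ℕ) ≠ 0 := by omega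
        exact_mod_cast h3
      rw [← Real.log_prod (fun i _ => by rw [h1]; exact h2 i),
        ← Real.log_prod (fun σ _ => by
          have h3 : 0 < Rad E b σ := Finset.prod_pos fun j _ => by
            split_ifs
            · have := h.bpos σ
              omega
            · exact one_pos
          exact_mod_cast h3.ne')]
      congr 1
      rw [Finset.prod_congr rfl fun i _ => h1 i,
        ← Finset.prod_fiberwise (g := fun i : {q : Fin 3 × Fin (D + 1) // 1 ≤ E q.1 q.2} => i.1.1)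
          Finset.univ]
      refine Finset.prod_congr rfl fun σ _ => ?_
      have h3 := prod_sub E (fun q => if 1 ≤ E q.1 q.2 then ((b q.1 + (q.2 : ℕ) : ℕ) : ℝ) else 1)
        (fun q hq => by simp only [hq]; simp) σ
      rw [Rad]
      push_cast
      push_cast at h3
      rw [← h3]
      refine Finset.prod_congr rfl fun q _ => ?_
      rw [if_pos q.2]
    have hgcne : ((A * B * q * PS : ℕ) : ℤ) ≠ 0 := by
      have h1 : 0 < A * B * q * PS := by positivity
      exact_mod_cast h1.ne'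
    have htm0 : ∀ σ, tm A B C W σ ≠ 0 := by
      intro σ
      have h1 : (W σ : ℤ) ≠ 0 := by exact_mod_cast (h.Wpos σ).ne'
      refine mul_ne_zero ?_ h1
      fin_cases σ
      · show (A : ℤ) ≠ 0
        exact_mod_cast hA.ne'
      · show (B : ℤ) ≠ 0
        exact_mod_cast hB.ne'
      · show (-(C : ℤ)) ≠ 0
        exact neg_ne_zero.2 (by exact_mod_cast hC.ne')
    have hsum0 : ∑ σ, tm A B C W σ = 0 := by
      rw [Fin.sum_univ_three]
      have h1 : ((A * W 0 + B * W 1 : ℕ) : ℤ) = ((C * W 2 : ℕ) : ℤ) := by rw [h.rel]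
      push_cast at h1
      simp only [tm, wt]
      show (A : ℤ) * W 0 + (B : ℤ) * W 1 + -(C : ℤ) * W 2 = 0
      linarith
    have hM' : 1 ≤ M * (1 + D) := by nlinarith
    have key := hmain (M * (1 + D)) hM'
      (fun q => Fin.snoc (α := fun _ => Γ') (fun j => Subgroup.inclusion hle (u₀ q.1.1 j)) 1)
      (fun q => Fin.snoc (α := fun _ => ℤ) (c₀ q.1.1) ((q.1.2 : ℕ) : ℤ))
      (by
        intro i j
        refine Fin.lastCases ?_ (fun j => ?_) j
        · rw [Fin.snoc_last]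
          push_cast
          rw [abs_of_nonneg (Nat.cast_nonneg _)]
          have h1 : (((i.1.2 : Fin (D + 1)) : ℕ) : ℝ) ≤ D := by
            exact_mod_cast Nat.lt_succ_iff.1 i.1.2.2
          nlinarith
        · rw [Fin.snoc_castSucc]
          have h1 := hc₀ i.1.1 j
          nlinarith)
      x (by
        intro i
        rw [Fin.sum_univ_castSucc]
        simp only [Fin.snoc_castSucc, Fin.snoc_last]
        rw [hx]
        have h1 := hrep₀ i.1.1
        simp only [Int.cast_natCast, Subgroup.coe_inclusion]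
        push_cast
        rw [h1]
        simp)
      (wt A B C) (tm A B C W) hwt hterm htm0 hsum0 hz ((A * B * q * PS : ℕ) : ℤ) hgcne
      (by
        have h1 : (fun σ => ∏ q : {q : Fin 3 × Fin (D + 1) // 1 ≤ E q.1 q.2} with q.1.1 = σ,
          x q ^ (E q.1.1 q.1.2 - 1)) = fun σ => ((Rep E b σ : ℕ) : ℤ) := funext hrepd
        rw [h1]
        have h2 : Finset.univ.gcd (fun σ => ((Rep E b σ : ℕ) : ℤ)) ∣ ((Rep E b 0 : ℕ) : ℤ) :=
          Finset.gcd_dvd (Finset.mem_univ _)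
        have h3 : Finset.univ.gcd (fun σ => ((Rep E b σ : ℕ) : ℤ)) ∣ ((Rep E b 1 : ℕ) : ℤ) :=
          Finset.gcd_dvd (Finset.mem_univ _)
        have h4 := Int.dvd_coe_gcd h2 h3
        rw [Int.gcd_natCast_natCast] at h4
        refine h4.trans ?_
        exact_mod_cast hq2.trans ((dvd_mul_left q (A * B)).trans (dvd_mul_right _ _)))
      (by
        intro v
        have := Fact.mk (hpr v)
        have hv : pr v ∣ PS := by
          rw [hPS]
          exact Finset.dvd_prod_of_mem _ (Finset.mem_univ v)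
        rcases s_part (pr v) A B (W 0) (W 1) q PS hA hB (h.Wpos 0) (h.Wpos 1) hPS0 hv hq1
          with h1 | h1
        · refine ⟨0, ?_⟩
          have h3 : (tm A B C W 0 : ℤ) = ((A * W 0 : ℕ) : ℤ) := by simp [tm, wt]
          rw [h3]
          simp only [av, Int.cast_natCast]
          exact_mod_cast h1
        · refine ⟨1, ?_⟩
          have h3 : (tm A B C W 1 : ℤ) = ((B * W 1 : ℕ) : ℤ) := by simp [tm, wt]
          rw [h3]
          simp only [av, Int.cast_natCast]
          exact_mod_cast h1)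
    -- the largest term
    obtain ⟨σ₀, hσ₀⟩ := Finite.exists_max (fun σ => |(tm A B C W σ : ℝ)|)
    obtain ⟨L, hL⟩ : ∃ L : ℝ, L = Real.log |(tm A B C W σ₀ : ℝ)| := ⟨_, rfl⟩
    have hWle : ∀ σ, (W σ : ℝ) ≤ |(tm A B C W σ : ℝ)| := by
      intro σ
      rw [tm]
      push_cast
      rw [abs_mul, abs_of_pos (hW0 σ)]
      have h1 : (1 : ℝ) ≤ |(wt A B C σ : ℝ)| := by
        have h2 : wt A B C σ ≠ 0 := left_ne_zero_of_mul (htm0 σ)
        exact_mod_cast Int.one_le_abs h2
      have := hW0 σ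
      nlinarith
    have hWL : ∀ σ, Real.log (W σ) ≤ L := by
      intro σ
      rw [hL]
      exact Real.log_le_log (hW0 σ) ((hWle σ).trans (hσ₀ σ))
    have hL0 : 0 ≤ L := by
      refine le_trans (Real.log_nonneg ?_) (hWL 0)
      exact_mod_cast h.Wpos 0
    have h1 := key σ₀
    rw [← hL, hsumr] at h1
    have h2 : ∑ σ, Real.log (Rad E b σ) ≤ F * L + 3 * ((1 + D) * lD) := by
      calc ∑ σ, Real.log (Rad E b σ) ≤
          ∑ σ : Fin 3, ((1 + (s σ : ℝ)) / n σ * L + (1 + D) * lD) := by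
            refine Finset.sum_le_sum fun σ _ => ?_
            rw [hlD]
            exact h.log_rad σ L (hWL σ)
        _ = (∑ σ : Fin 3, (1 + (s σ : ℝ)) / n σ) * L + 3 * ((1 + D) * lD) := by
            rw [Finset.sum_add_distrib, ← Finset.sum_mul, Finset.sum_const, Finset.card_univ,
              Fintype.card_fin, nsmul_eq_mul]
            norm_num
        _ ≤ _ := by
            have h3 := mul_le_mul_of_nonneg_right h.deg hL0
            linarith
    have h3 : Real.log |(((A * B * q * PS : ℕ) : ℤ) : ℝ)| ≤ lQ := by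
      have h4 : |(((A * B * q * PS : ℕ) : ℤ) : ℝ)| = (A : ℝ) * B * q * PS := by
        push_cast
        exact abs_of_nonneg (by positivity)
      rw [h4, hlQ]
      have hAR : (0 : ℝ) < A := by exact_mod_cast hA
      have hBR : (0 : ℝ) < B := by exact_mod_cast hB
      have hqR : (0 : ℝ) < q := by exact_mod_cast hq3
      have hPR : (0 : ℝ) < PS := by exact_mod_cast hPS0
      refine le_trans (Real.log_le_log (by positivity) ?_) (le_abs_self _)
      exact mul_le_mul_of_nonneg_right (mul_le_mul_of_nonneg_left hq4 (by positivity)) hPR.le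
    have h4 : Real.log (M * (1 + D)) = Real.log M + lD := by
      rw [hlD, Real.log_mul (by linarith) (by linarith)]
    rw [h4] at h1
    have h5 : Cc * (1 + (Real.log M + lD)) ≤ |Cc| * (1 + lD) * (1 + Real.log M) := by
      calc Cc * (1 + (Real.log M + lD)) ≤ |Cc| * (1 + (Real.log M + lD)) :=
            mul_le_mul_of_nonneg_right (le_abs_self _) (by positivity)
        _ ≤ |Cc| * ((1 + lD) * (1 + Real.log M)) := by
            refine mul_le_mul_of_nonneg_left ?_ (abs_nonneg _)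
            nlinarith [mul_nonneg hlD0 hlM]
        _ = _ := by ring
    have h6 : ε * L ≤ (|Cc| * (1 + lD) + lQ + 3 * ((1 + D) * lD)) * (1 + Real.log M) := by
      have h7 : (1 - ε) * L - F * L = ε * L := by
        rw [hεdef]
        ring
      have h8 : lQ ≤ lQ * (1 + Real.log M) := by nlinarith [mul_nonneg hlQ0 hlM]
      have h9 : 3 * ((1 + D) * lD) ≤ 3 * ((1 + D) * lD) * (1 + Real.log M) := by
        have : 0 ≤ 3 * ((1 + D) * lD) := by positivity
        nlinarith [mul_nonneg this hlM]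
      have h10 : (|Cc| * (1 + lD) + lQ + 3 * ((1 + D) * lD)) * (1 + Real.log M) =
          |Cc| * (1 + lD) * (1 + Real.log M) + lQ * (1 + Real.log M) +
            3 * ((1 + D) * lD) * (1 + Real.log M) := by ring
      rw [h10]
      linarith
    intro σ
    refine (hWL σ).trans ?_
    rw [div_mul_eq_mul_div, le_div_iff₀ hε]
    linarith

end Pool.Agent.P8H51.SB
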