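import Mathlib
import Pool.Agent.P8H51.SB.IneqE

/-!
# Solutions with sparse bases: all multiplicities together
-/

set_option autoImplicit false

namespace Pool.Agent.P8H51.SB

open Finset

/-- multiplicities of the factors of a product -/
theorem rep_mult {n : ℕ} (x : Fin n → ℕ) (b s D : ℕ) (hsD : s ≤ D)
    (hx : ∀ i, b ≤ x i ∧ x i ≤ b + s) : ∃ E : Fin (D + 1) → Fin (n + 1),
      ∑ j, (E j : ℕ) = n ∧ (∀ j : Fin (D + 1), s < (j : ℕ) → (E j : ℕ) = 0) ∧
      ∏ i, x i = ∏ j : Fin (D + 1), (b + j) ^ (E j : ℕ) := by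
  classical
  have hf : ∀ i, x i - b < D + 1 := fun i => by have := hx i; omega
  set f : Fin n → Fin (D + 1) := fun i => ⟨x i - b, hf i⟩ with hfdef
  have hcard : ∀ j, (univ.filter fun i => f i = j).card < n + 1 := fun j => by
    have h1 := Finset.card_le_univ (univ.filter fun i => f i = j)
    rw [Fintype.card_fin] at h1
    omega
  refine ⟨fun j => ⟨(univ.filter fun i => f i = j).card, hcard j⟩, ?_, ?_, ?_⟩
  · simp only
    rw [← Finset.card_eq_sum_card_fiberwise (f := f) (s := univ) (t := univ)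
      (fun _ _ => Finset.mem_coe.2 (Finset.mem_univ _)), Finset.card_univ, Fintype.card_fin]
  · intro j hj
    simp only
    rw [Finset.card_eq_zero, Finset.filter_eq_empty_iff]
    intro i _ hi
    have h1 := hx i
    have h2 : x i - b = (j : ℕ) := by rw [← hi]
    omega
  · rw [← Finset.prod_fiberwise (g := f) Finset.univ]
    refine Finset.prod_congr rfl fun j _ => ?_
    have h1 : ∀ i ∈ univ.filter (fun i => f i = j), x i = b + (j : ℕ) := by
      intro i hi
      have h2 : f i = j := (Finset.mem_filter.1 hi).2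
      have h3 : x i - b = (j : ℕ) := by rw [← h2]
      have h4 := hx i
      omega
    rw [Finset.prod_congr rfl h1, Finset.prod_const]

/-- all multiplicities together -/
theorem all_E (A B C : ℕ) (hA : 0 < A) (hB : 0 < B) (hC : 0 < C) (F Q : ℝ) (hF : F < 1) (D k : ℕ)
    (Γ : Subgroup ℚˣ) (hΓ : Γ.FG) :
    ∃ (N : ℕ) (C1 : ℝ), 0 ≤ C1 ∧ ∀ M : ℝ, 1 ≤ M → ∀ (E : Fin 3 → Fin (D + 1) → Fin (D + 1))
      (b n s W : Fin 3 → ℕ), Sol A B C F Q D (fun σ j => E σ j) b n s W →
      (∀ σ, IsSparse Γ k M (b σ)) →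
      (∀ σ, W σ ≤ N) ∨ ∀ σ, Real.log (W σ) ≤ C1 * (1 + Real.log M) := by
  classical
  choose R C1 h1 using fun E : Fin 3 → Fin (D + 1) → Fin (D + 1) =>
    ineq_E A B C hA hB hC F Q hF D k Γ hΓ (fun σ j => (E σ j : ℕ))
  choose N hN using ratio_bounded A B C hA hB hC F Q D
  refine ⟨(Finset.univ.biUnion R).sup N, ∑ E, |C1 E|,
    Finset.sum_nonneg fun _ _ => abs_nonneg _, ?_⟩
  intro M hM E b n s W h hsp
  rcases h1 E M hM b n s W h hsp with h2 | h2
  · left
    intro σ
    refine (hN _ _ b n s W h rfl σ).trans ?_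
    exact Finset.le_sup (f := N) (Finset.mem_biUnion.2 ⟨E, Finset.mem_univ _, h2⟩)
  · right
    intro σ
    refine (h2 σ).trans ?_
    refine mul_le_mul_of_nonneg_right ?_ (by linarith [Real.log_nonneg hM])
    exact (le_abs_self _).trans
      (Finset.single_le_sum (f := fun E => |C1 E|) (fun _ _ => abs_nonneg _) (Finset.mem_univ E))

end Pool.Agent.P8H51.SB
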